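import Mathlib

/-!
# KSS, final step: an Abelian theorem
-/

namespace Pool.Agent.KSF

open Filter Topology

theorem fin_abel (n : ℕ) (τ : ℕ → ℝ) (hτ : ∀ m, 0 ≤ τ m) (c : ℝ) (hc : 0 < c)
    (hτc : ∀ᶠ m : ℕ in atTop, c * (m : ℝ) ^ (n + 1) ≤ τ m) (c' : ℝ)
    (hc' : c' < c * (n + 1).factorial) :
    ∀ᶠ q : ℝ in 𝓝[<] 1, ∀ᶠ M0 : ℕ in atTop,
      c' ≤ (1 - q) ^ (n + 2) * ∑ m ∈ Finset.range (M0 + 1), q ^ m * τ m := by
  have hfac : (0 : ℝ) < (n + 1).factorial := by exact_mod_cast Nat.factorial_pos _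
  obtain ⟨c1, hc1, hc1c⟩ : ∃ c1, max (c' / (n + 1).factorial) 0 < c1 ∧ c1 < c := by
    apply exists_between
    rw [max_lt_iff]
    refine ⟨?_, hc⟩
    rw [div_lt_iff₀ hfac]
    exact hc'
  have hc1' : c' < c1 * (n + 1).factorial := by
    have := (max_lt_iff.1 hc1).1
    rwa [div_lt_iff₀ hfac] at this
  have hc1p : 0 < c1 := (max_lt_iff.1 hc1).2
  -- comparison with binomial coefficients
  have hlim : Tendsto (fun m : ℕ => c1 * (((m : ℝ) + (n + 1)) / m) ^ (n + 1)) atTop (𝓝 c1) := by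
    have h1 : Tendsto (fun m : ℕ => ((m : ℝ) + (n + 1)) / m) atTop (𝓝 1) := by
      have h2 : Tendsto (fun m : ℕ => 1 + ((n : ℝ) + 1) / m) atTop (𝓝 (1 + 0)) :=
        tendsto_const_nhds.add (tendsto_const_div_atTop_nhds_zero_nat ((n : ℝ) + 1))
      rw [add_zero] at h2
      refine h2.congr' ?_
      filter_upwards [eventually_gt_atTop 0] with m hm
      have : (m : ℝ) ≠ 0 := by exact_mod_cast hm.ne'
      field_simp
    have h3 := (h1.pow (n + 1)).const_mul c1
    simpa using h3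
  have hev : ∀ᶠ m : ℕ in atTop,
      c1 * (n + 1).factorial * ((m + (n + 1)).choose (n + 1) : ℝ) ≤ τ m := by
    filter_upwards [hτc, hlim.eventually (gt_mem_nhds hc1c), eventually_gt_atTop 0] with m h1 h2 hm
    have hm' : (0 : ℝ) < m := by exact_mod_cast hm
    refine le_trans ?_ h1
    have h3 : ((m + (n + 1)).choose (n + 1) : ℝ) ≤
        ((m + (n + 1) : ℕ) : ℝ) ^ (n + 1) / (n + 1).factorial := Nat.choose_le_pow_div _ _
    have h4 : c1 * (n + 1).factorial * ((m + (n + 1)).choose (n + 1) : ℝ) ≤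
        c1 * ((m : ℝ) + (n + 1)) ^ (n + 1) := by
      calc c1 * (n + 1).factorial * ((m + (n + 1)).choose (n + 1) : ℝ)
          ≤ c1 * (n + 1).factorial * (((m + (n + 1) : ℕ) : ℝ) ^ (n + 1) / (n + 1).factorial) := by
            gcongr
        _ = c1 * ((m : ℝ) + (n + 1)) ^ (n + 1) := by
            push_cast
            field_simp
    refine h4.trans ?_
    rw [div_pow, ← mul_div_assoc, div_lt_iff₀ (by positivity)] at h2
    exact h2.le
  obtain ⟨m1, hm1⟩ := eventually_atTop.1 hev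
  set K : ℝ := c1 * (n + 1).factorial * ((m1 + (n + 1)).choose (n + 1) : ℝ) with hK
  have hK0 : 0 ≤ K := by rw [hK]; positivity
  have hall : ∀ m : ℕ, c1 * (n + 1).factorial * ((m + (n + 1)).choose (n + 1) : ℝ) - K ≤ τ m := by
    intro m
    rcases le_total m1 m with h | h
    · have := hm1 m h
      linarith
    · have h1 : ((m + (n + 1)).choose (n + 1) : ℝ) ≤ ((m1 + (n + 1)).choose (n + 1) : ℝ) := by
        exact_mod_cast Nat.choose_le_choose _ (by omega)
      have h2 : c1 * (n + 1).factorial * ((m + (n + 1)).choose (n + 1) : ℝ) ≤ K := by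
        rw [hK]; gcongr
      have := hτ m
      linarith
  -- choose q
  have hq : Tendsto (fun q : ℝ => c1 * (n + 1).factorial - K * (1 - q) ^ (n + 1)) (𝓝[<] 1)
      (𝓝 (c1 * (n + 1).factorial)) := by
    have h1 : Tendsto (fun q : ℝ => c1 * (n + 1).factorial - K * (1 - q) ^ (n + 1)) (𝓝 1)
        (𝓝 (c1 * (n + 1).factorial - K * (1 - 1) ^ (n + 1))) := by
      apply Continuous.tendsto
      fun_prop
    rw [sub_self, zero_pow (by omega), mul_zero, sub_zero] at h1
    exact h1.mono_left nhdsWithin_le_nhds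
  filter_upwards [hq.eventually (lt_mem_nhds hc1'), self_mem_nhdsWithin,
    nhdsWithin_le_nhds (Ioi_mem_nhds (show (0 : ℝ) < 1 by norm_num))] with q h1 h2 h3
  have hq1 : q < 1 := h2
  have hq0 : 0 < q := h3
  have hnorm : ‖q‖ < 1 := by rw [Real.norm_eq_abs, abs_of_pos hq0]; exact hq1
  have hs1 := hasSum_choose_mul_geometric_of_norm_lt_one (n + 1) hnorm
  have hs2 := hasSum_geometric_of_norm_lt_one hnorm
  have hs3 : HasSum (fun m : ℕ => c1 * (n + 1).factorial *
      (((m + (n + 1)).choose (n + 1) : ℝ) * q ^ m) - K * q ^ m)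
      (c1 * (n + 1).factorial * (1 / (1 - q) ^ (n + 1 + 1)) - K * (1 - q)⁻¹) :=
    (hs1.mul_left _).sub (hs2.mul_left _)
  have hs4 := (hs3.tendsto_sum_nat).comp (tendsto_add_atTop_nat 1)
  have hpos : 0 < 1 - q := by linarith
  have hs5 : Tendsto (fun M0 : ℕ => (1 - q) ^ (n + 2) * ∑ m ∈ Finset.range (M0 + 1),
      (c1 * (n + 1).factorial * (((m + (n + 1)).choose (n + 1) : ℝ) * q ^ m) - K * q ^ m)) atTop
      (𝓝 (c1 * (n + 1).factorial - K * (1 - q) ^ (n + 1))) := by
    have h4 := hs4.const_mul ((1 - q) ^ (n + 2))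
    have h5 : (1 - q) ^ (n + 2) * (c1 * (n + 1).factorial * (1 / (1 - q) ^ (n + 1 + 1))
        - K * (1 - q)⁻¹) = c1 * (n + 1).factorial - K * (1 - q) ^ (n + 1) := by
      have h6 : (1 - q) ^ (n + 2) = (1 - q) ^ (n + 1) * (1 - q) := by ring
      rw [h6]
      field_simp
    rw [h5] at h4
    exact h4
  filter_upwards [hs5.eventually (lt_mem_nhds h1)] with M0 h6
  refine h6.le.trans ?_
  gcongr with m hm
  have h7 := hall m
  have h8 : 0 ≤ q ^ m := by positivity
  nlinarith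

end Pool.Agent.KSF
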